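import Mathlib

set_option autoImplicit false

/-! Definitions: Gromov boundary of a hyperbolic graph, mapping tori of automorphisms of free
groups, points of Outer space, visual metrics, and the set of ends with non-conical image under
the Cannon-Thurston map. -/

namespace Pool.Agent.CT

section Graph

variable {V : Type*} (X : SimpleGraph V)

/-- The Gromov product `(x|y)_w` for the path metric of the graph `X`. -/
noncomputable def gromovProduct (w x y : V) : ℝ :=
  ((X.dist x w : ℝ) + X.dist y w - X.dist x y) / 2

/-- `X` is connected and Gromov hyperbolic (four point condition for some `δ`). -/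
def IsGromovHyperbolic : Prop :=
  X.Connected ∧ ∃ δ : ℝ, ∀ w x y z : V,
    min (gromovProduct X w x y) (gromovProduct X w y z) - δ ≤ gromovProduct X w x z

/-- Geodesic rays of `X`, given by their successive vertices. -/
structure GeodesicRay where
  /-- The successive vertices of the ray. -/
  vert : ℕ → V
  geod : ∀ m n : ℕ, m ≤ n → X.dist (vert m) (vert n) = n - m

/-- Two geodesic rays are asymptotic if they stay at bounded distance from each other. -/
def Asymptotic (γ γ' : GeodesicRay X) : Prop :=
  ∃ K : ℕ, ∀ n, X.dist (γ.vert n) (γ'.vert n) ≤ K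

/-- The Gromov boundary: geodesic rays up to the equivalence relation generated by being
asymptotic. -/
def GromovBoundary : Type _ := Quot (Asymptotic X)

/-- The sequence `y` of vertices converges to the boundary point `z`. -/
def ConvergesTo (y : ℕ → V) (z : GromovBoundary X) : Prop :=
  ∃ γ : GeodesicRay X, Quot.mk _ γ = z ∧
    ∀ M : ℝ, ∃ N : ℕ, ∀ k n : ℕ, N ≤ k → N ≤ n →
      M ≤ gromovProduct X (γ.vert 0) (y k) (γ.vert n)

/-- `z` is a conical limit point for the set `F` of vertices: some geodesic ray converging to `z`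
passes within a bounded distance of infinitely many distinct elements of `F`. -/
def IsConical (F : Set V) (z : GromovBoundary X) : Prop :=
  ∃ γ : GeodesicRay X, Quot.mk _ γ = z ∧
    ∃ R : ℕ, {f : V | f ∈ F ∧ ∃ n, X.dist f (γ.vert n) ≤ R}.Infinite

end Graph

/-- The group `G_φ = F_r ⋊_φ ℤ`. -/
abbrev MappingTorus {r : ℕ} (φ : MulAut (FreeGroup (Fin r))) : Type :=
  FreeGroup (Fin r) ⋊[zpowersHom (MulAut (FreeGroup (Fin r))) φ] Multiplicative ℤ

/-- A point of the unprojectivised Outer space `cv_r`: a metric simplicial tree with a free,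
minimal, isometric action of `F_r` with finite quotient graph. -/
structure OuterTree (r : ℕ) where
  /-- Vertices. -/
  V : Type
  /-- The underlying tree. -/
  graph : SimpleGraph V
  isTree : graph.IsTree
  /-- The action of the free group on the vertices. -/
  [action : MulAction (FreeGroup (Fin r)) V]
  adj_smul : ∀ (g : FreeGroup (Fin r)) (v w : V), graph.Adj v w → graph.Adj (g • v) (g • w)
  free : ∀ (g : FreeGroup (Fin r)) (v : V), g • v = v → g = 1
  finite_vertices : ∃ D : Set V, D.Finite ∧ ∀ v : V, ∃ g : FreeGroup (Fin r), g • v ∈ D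
  finite_edges : ∃ E : Set (V × V), E.Finite ∧
    ∀ v w : V, graph.Adj v w → ∃ g : FreeGroup (Fin r), (g • v, g • w) ∈ E
  minimal : ∀ U : Set V, U.Nonempty → (∀ (g : FreeGroup (Fin r)), ∀ v ∈ U, g • v ∈ U) →
    (graph.induce U).Connected → U = Set.univ
  /-- Lengths of the edges. -/
  len : V → V → ℝ
  len_symm : ∀ v w : V, len v w = len w v
  len_pos : ∀ v w : V, graph.Adj v w → 0 < len v w
  len_smul : ∀ (g : FreeGroup (Fin r)) (v w : V), len (g • v) (g • w) = len v w

attribute [instance] OuterTree.action

section Boundary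

variable {r : ℕ} (T : OuterTree r) (x₀ : T.V)

/-- The boundary `∂T = ∂F_r`: geodesic rays of `T` issuing from the base vertex `x₀`. -/
def TreeBoundary : Type := {ξ : GeodesicRay T.graph // ξ.vert 0 = x₀}

variable {T x₀}

/-- Length of the common initial segment of two distinct rays `ξ`, `η`. -/
noncomputable def commonLength (ξ η : TreeBoundary T x₀) : ℝ :=
  ∑ i ∈ Finset.range (sInf {n : ℕ | ξ.1.vert n ≠ η.1.vert n} - 1),
    T.len (ξ.1.vert i) (ξ.1.vert (i + 1))

open Classical in
/-- The visual distance `d_a(ξ, η) = a ^ (-(ξ·η)_{x₀})`. -/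
noncomputable def visualDist (a : ℝ) (ξ η : TreeBoundary T x₀) : ℝ :=
  if ξ = η then 0 else a ^ (-commonLength ξ η)

/-- The sequence `y` of vertices of `T` converges to the end `ξ` of `T`: every vertex of the ray
`ξ` eventually lies on the geodesic from `x₀` to `y k`. -/
def TendsToEnd (y : ℕ → T.V) (ξ : TreeBoundary T x₀) : Prop :=
  ∀ n : ℕ, ∃ N : ℕ, ∀ k : ℕ, N ≤ k →
    T.graph.dist x₀ (y k) = n + T.graph.dist (ξ.1.vert n) (y k)

/-- `z` is the value at the end `ξ ∈ ∂T = ∂F_r` of the continuous extension `∂i` of the inclusion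
`i : F_r → G_φ`: whenever `f k → ξ`, one has `i (f k) → z`. Here `∂G_φ` is the boundary of the
Cayley graph for the generating set `S`. -/
def IsCannonThurstonValue (φ : MulAut (FreeGroup (Fin r))) (S : Set (MappingTorus φ))
    (ξ : TreeBoundary T x₀) (z : GromovBoundary (SimpleGraph.mulCayley S)) : Prop :=
  ∀ f : ℕ → FreeGroup (Fin r), TendsToEnd (fun k => f k • x₀) ξ →
    ConvergesTo (SimpleGraph.mulCayley S)
      (fun k => (SemidirectProduct.inl (f k) : MappingTorus φ)) z

/-- The set `B` of the points of `∂T = ∂F_r` whose image under the Cannon-Thurston map is not a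
conical limit point for the action of `F_r`. -/
def nonconicalPreimage (φ : MulAut (FreeGroup (Fin r))) (S : Set (MappingTorus φ))
    (T : OuterTree r) (x₀ : T.V) : Set (TreeBoundary T x₀) :=
  {ξ | ∃ z : GromovBoundary (SimpleGraph.mulCayley S), IsCannonThurstonValue φ S ξ z ∧
    ¬ IsConical (SimpleGraph.mulCayley S)
      (Set.range (SemidirectProduct.inl : FreeGroup (Fin r) →* MappingTorus φ)) z}

end Boundary

end Pool.Agent.CT
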