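import Mathlib

set_option autoImplicit false

/-! A path with linear progress in a hyperbolic space which converges to the end of a geodesic ray
comes back to a bounded neighbourhood of the ray infinitely often. -/

namespace Pool.Agent.CT

variable {V : Type*}

/-- Gromov product for a distance function `d`, based at `w`. -/
noncomputable def gp (d : V → V → ℝ) (w x y : V) : ℝ := (d x w + d y w - d x y) / 2

/-- Axioms of a hyperbolic pseudo-distance. -/
structure Hyp (d : V → V → ℝ) (δ : ℝ) : Prop where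
  self : ∀ x, d x x = 0
  symm : ∀ x y, d x y = d y x
  tri : ∀ x y z, d x z ≤ d x y + d y z
  pos : 0 ≤ δ
  hyp : ∀ w x y z, min (gp d w x y) (gp d w y z) - δ ≤ gp d w x z

variable {d : V → V → ℝ} {δ : ℝ}

lemma Hyp.nonneg (h : Hyp d δ) (x y : V) : 0 ≤ d x y := by
  have h1 := h.tri x y x
  have h2 := h.self x
  have h3 := h.symm y x
  linarith

lemma gp_symm (h : Hyp d δ) (w x y : V) : gp d w x y = gp d w y x := by
  unfold gp
  rw [h.symm x y]
  ring

lemma gp_self (h : Hyp d δ) (w x : V) : gp d w x x = d x w := by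
  unfold gp
  rw [h.self x]
  ring

lemma gp_ge (h : Hyp d δ) (w x y : V) : d x w - d x y ≤ gp d w x y := by
  unfold gp
  have h1 := h.tri x y w
  linarith

lemma gp_le_left (h : Hyp d δ) (w x y : V) : gp d w x y ≤ d x w := by
  unfold gp
  have h1 := h.tri y x w
  have h2 := h.symm x y
  linarith

lemma gp_le_right (h : Hyp d δ) (w x y : V) : gp d w x y ≤ d y w := by
  rw [gp_symm h]; exact gp_le_left h _ _ _

lemma gp_nonneg (h : Hyp d δ) (w x y : V) : 0 ≤ gp d w x y := by
  unfold gp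
  have h1 := h.tri x w y
  have h2 := h.symm w y
  linarith

/-- Chains. -/
lemma chain (h : Hyp d δ) {x : ℕ → V} {C : ℝ} (hC : ∀ n, d (x n) (x (n + 1)) ≤ C)
    (w : V) {D : ℝ} (k : ℕ) : ∀ i j : ℕ, i ≤ j → j ≤ i + 2 ^ k →
      (∀ l, i ≤ l → l ≤ j → D ≤ d (x l) w) → D - C - k * δ ≤ gp d w (x i) (x j) := by
  have hC0 : 0 ≤ C := (h.nonneg _ _).trans (hC 0)
  have hδ := h.pos
  induction k with
  | zero =>
    intro i j hij hj hD
    rw [pow_zero] at hj
    rcases Nat.lt_or_ge i j with h1 | h1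
    · have : j = i + 1 := by omega
      subst this
      have h2 := gp_ge h w (x i) (x (i + 1))
      have h3 := hC i
      have h4 := hD i le_rfl (by omega)
      push_cast
      linarith
    · have : j = i := by omega
      subst this
      rw [gp_self h]
      have := hD j le_rfl le_rfl
      push_cast
      linarith
  | succ k ih =>
    intro i j hij hj hD
    rw [pow_succ] at hj
    set m := min (i + 2 ^ k) j with hm
    have hm1 : i ≤ m := by omega
    have hm2 : m ≤ j := by omega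
    have hm3 : m ≤ i + 2 ^ k := by omega
    have hm4 : j ≤ m + 2 ^ k := by omega
    have h1 := ih i m hm1 hm3 (fun l hl1 hl2 => hD l hl1 (by omega))
    have h2 := ih m j hm2 hm4 (fun l hl1 hl2 => hD l (by omega) hl2)
    have h3 := h.hyp w (x i) (x m) (x j)
    have h4 : D - C - k * δ ≤ min (gp d w (x i) (x m)) (gp d w (x m) (x j)) := le_min h1 h2
    push_cast
    linarith

section Ray

variable {γ : ℕ → V} (hγ : ∀ m n, m ≤ n → d (γ m) (γ n) = (n : ℝ) - m)

include hγ in
/-- A point behind and a point ahead of `γ s`. -/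
lemma behind_ahead (h : Hyp d δ) {x y : V} {s u : ℕ} (hsu : s ≤ u)
    (h1 : gp d (γ 0) x (γ u) + δ < s) (h2 : (s : ℝ) ≤ gp d (γ 0) y (γ u)) :
    gp d (γ s) x y ≤ 3 * δ := by
  set o := γ 0 with ho
  set U := γ u with hU
  set w := γ s with hw
  have e1 : d w o = s := by rw [h.symm, ho, hw, hγ 0 s (Nat.zero_le _)]; simp
  have e2 : d U o = u := by rw [h.symm, ho, hU, hγ 0 u (Nat.zero_le _)]; simp
  have e3 : d w U = u - s := hγ s u hsu
  have e4 : gp d o w U = s := by unfold gp; rw [e1, e2, e3]; ring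
  have e4' : gp d o U w = s := by rw [gp_symm h, e4]
  set α := gp d o x U with hα
  set β := gp d o y U with hβ
  have hδ := h.pos
  -- product of `x` and `y`
  have f1 : gp d o x y ≤ α + δ := by
    by_contra hc
    push Not at hc
    have := h.hyp o x y U
    have h3 : α + δ < min (gp d o x y) (gp d o y U) := lt_min hc (by linarith)
    linarith
  have f2 : α - δ ≤ gp d o x w := by
    have := h.hyp o x U w
    rw [e4'] at this
    have h3 : α ≤ min α (s : ℝ) := le_min le_rfl (by linarith)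
    linarith
  have f3 : s - δ ≤ gp d o y w := by
    have := h.hyp o y U w
    rw [e4'] at this
    have h3 : (s : ℝ) ≤ min β (s : ℝ) := le_min h2 le_rfl
    linarith
  unfold gp at f1 f2 f3 ⊢
  rw [e1] at f2 f3
  linarith

variable {x : ℕ → V}

/-- Product of `x k` with the end of the ray. -/
noncomputable def pr (d : V → V → ℝ) (γ x : ℕ → V) (k : ℕ) : ℝ :=
  ⨆ s, gp d (γ 0) (x k) (γ s)

lemma bdd (h : Hyp d δ) (k : ℕ) : BddAbove (Set.range (fun s => gp d (γ 0) (x k) (γ s))) := by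
  refine ⟨d (x k) (γ 0), ?_⟩
  rintro _ ⟨s, rfl⟩
  exact gp_le_left h _ _ _

lemma le_pr (h : Hyp d δ) (k s : ℕ) : gp d (γ 0) (x k) (γ s) ≤ pr d γ x k :=
  le_ciSup (bdd h k) s

lemma pr_nonneg (h : Hyp d δ) (k : ℕ) : 0 ≤ pr d γ x k :=
  (gp_nonneg h _ _ _).trans (le_pr h k 0)

include hγ in
lemma gp_mono (h : Hyp d δ) (y : V) : Monotone (fun s => gp d (γ 0) y (γ s)) := by
  intro s t hst
  simp only
  unfold gp
  have h1 := h.tri y (γ s) (γ t)
  rw [hγ s t hst] at h1
  have h2 : d (γ s) (γ 0) = s := by rw [h.symm, hγ 0 s (Nat.zero_le _)]; simp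
  have h3 : d (γ t) (γ 0) = t := by rw [h.symm, hγ 0 t (Nat.zero_le _)]; simp
  rw [h2, h3]
  linarith

include hγ in
/-- Slow progress far from the ray. -/
lemma progress (h : Hyp d δ) (i j : ℕ)
    (hlow : ∀ s : ℕ, 3 * δ < gp d (γ s) (x i) (x j)) :
    pr d γ x j ≤ pr d γ x i + δ + 1 := by
  by_contra hc
  push Not at hc
  have hδ := h.pos
  have h0 : 0 ≤ pr d γ x i + δ := add_nonneg (pr_nonneg h i) hδ
  set s := ⌊pr d γ x i + δ⌋₊ + 1 with hs
  have hs1 : pr d γ x i + δ < s := by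
    have := Nat.lt_floor_add_one (pr d γ x i + δ)
    rw [hs]; push_cast; exact this
  have hs2 : (s : ℝ) ≤ pr d γ x i + δ + 1 := by
    have := Nat.floor_le h0
    rw [hs]; push_cast; linarith
  have hs3 : (s : ℝ) < pr d γ x j := by linarith
  obtain ⟨u, hu⟩ := exists_lt_of_lt_ciSup hs3
  set u' := max u s with hu'
  have h1 : (s : ℝ) ≤ gp d (γ 0) (x j) (γ u') :=
    hu.le.trans (gp_mono hγ h (x j) (le_max_left _ _))
  have h2 : gp d (γ 0) (x i) (γ u') + δ < s := by
    have := le_pr (γ := γ) (x := x) h i u'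
    linarith
  have h3 := behind_ahead hγ h (le_max_right u s) h2 h1
  linarith [hlow s]

include hγ in
/-- **Key geometric lemma.** -/
theorem no_linear_progress (h : Hyp d δ) {C : ℝ} (hC : ∀ n, d (x n) (x (n + 1)) ≤ C)
    (H1 : ∀ M : ℝ, ∃ N : ℕ, ∀ k n : ℕ, N ≤ k → N ≤ n → M ≤ gp d (γ 0) (x k) (γ n))
    {ε : ℝ} (hε : 0 < ε) {n₀ : ℕ} (H2 : ∀ n : ℕ, n₀ ≤ n → ε * n ≤ d (x n) (γ 0))
    (H3 : ∀ R : ℝ, ∃ N : ℕ, ∀ k : ℕ, N ≤ k → ∀ s : ℕ, R < d (x k) (γ s)) : False := by
  have hδ := h.pos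
  have hC0 : 0 ≤ C := (h.nonneg _ _).trans (hC 0)
  -- choice of the scale
  obtain ⟨k, hk⟩ : ∃ k : ℕ, (δ + 1) / 2 ^ k < ε / 4 := by
    obtain ⟨k, hk⟩ := exists_pow_lt_of_lt_one (show 0 < ε / 4 / (δ + 1) by positivity)
      (show (1 / 2 : ℝ) < 1 by norm_num)
    refine ⟨k, ?_⟩
    rw [one_div, inv_pow, lt_div_iff₀ (by positivity)] at hk
    rw [div_eq_mul_inv, mul_comm]
    exact hk
  obtain ⟨N, hN⟩ := H3 (C + k * δ + 3 * δ)
  -- progress over a block
  have hblock : ∀ i j : ℕ, N ≤ i → i ≤ j → j ≤ i + 2 ^ k → pr d γ x j ≤ pr d γ x i + δ + 1 := by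
    intro i j hi hij hj
    apply progress hγ h
    intro s
    -- a uniform strict lower bound on the block
    have hfin : ∃ D, C + k * δ + 3 * δ < D ∧ ∀ l, i ≤ l → l ≤ j → D ≤ d (x l) (γ s) := by
      have hne : (Finset.Icc i j).Nonempty := ⟨i, by simp [hij]⟩
      refine ⟨(Finset.Icc i j).inf' hne (fun l => d (x l) (γ s)), ?_, ?_⟩
      · rw [Finset.lt_inf'_iff]
        intro l hl
        rw [Finset.mem_Icc] at hl
        exact hN l (by omega) s
      · intro l h1 h2
        exact Finset.inf'_le _ (by simp [h1, h2])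
    obtain ⟨D, hD1, hD2⟩ := hfin
    have := chain h hC (γ s) k i j hij hj hD2
    linarith
  have hrate : ∀ m : ℕ, pr d γ x (N + m) ≤ pr d γ x N + (δ + 1) * (m / 2 ^ k + 1) := by
    intro m
    induction m using Nat.strong_induction_on with
    | _ m ih =>
      rcases Nat.lt_or_ge m (2 ^ k) with hm | hm
      · have := hblock N (N + m) le_rfl (by omega) (by omega)
        have h2 : (0 : ℝ) ≤ (δ + 1) * (m / 2 ^ k) := by positivity
        linarith
      · have hpos : 0 < 2 ^ k := by positivity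
        have h1 := ih (m - 2 ^ k) (by omega)
        have h2 := hblock (N + (m - 2 ^ k)) (N + m) (by omega) (by omega) (by omega)
        have h3 : (((m - 2 ^ k : ℕ) : ℝ)) = m - 2 ^ k := by
          rw [Nat.cast_sub hm]; push_cast; rfl
        rw [h3, sub_div, div_self (by positivity)] at h1
        nlinarith
  -- linear distance from the ray
  obtain ⟨N₁, hN₁⟩ : ∃ N₁ : ℕ, ∀ n : ℕ, N₁ ≤ n → ∀ s : ℕ, ε / 2 * n ≤ d (x n) (γ s) := by
    obtain ⟨N₂, hN₂⟩ := exists_nat_gt ((pr d γ x N + (δ + 1)) / (ε / 4))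
    refine ⟨max (max N N₂) n₀, ?_⟩
    intro n hn s
    have hnN : N ≤ n := by omega
    have hnN₂ : N₂ ≤ n := by omega
    have hnn₀ : n₀ ≤ n := by omega
    have h1 := hrate (n - N)
    rw [Nat.add_sub_cancel' hnN] at h1
    have h2 : ((n - N : ℕ) : ℝ) ≤ n := by exact_mod_cast Nat.sub_le n N
    have h3 : pr d γ x N + (δ + 1) ≤ ε / 4 * n := by
      rw [div_lt_iff₀ (by positivity)] at hN₂
      have : (N₂ : ℝ) ≤ n := by exact_mod_cast hnN₂
      nlinarith
    have h4 : (δ + 1) * (((n - N : ℕ) : ℝ) / 2 ^ k) ≤ ε / 4 * n := by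
      have e1 : (δ + 1) * (((n - N : ℕ) : ℝ) / 2 ^ k) = (δ + 1) / 2 ^ k * ((n - N : ℕ) : ℝ) := by
        ring
      rw [e1]
      have : (0 : ℝ) ≤ ((n - N : ℕ) : ℝ) := by positivity
      nlinarith
    have h5 : pr d γ x n ≤ ε / 2 * n := by
      have : (δ + 1) * (((n - N : ℕ) : ℝ) / 2 ^ k + 1) =
        (δ + 1) * (((n - N : ℕ) : ℝ) / 2 ^ k) + (δ + 1) := by ring
      linarith
    have h6 := H2 n hnn₀
    have h7 := le_pr (γ := γ) (x := x) h n s
    have h8 := gp_le_right h (γ 0) (x n) (γ s)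
    have h9 : d (x n) (γ s) = d (x n) (γ 0) + d (γ s) (γ 0) - 2 * gp d (γ 0) (x n) (γ s) := by
      unfold gp; ring
    rw [h9]
    linarith
  -- choice of a dyadic starting time
  obtain ⟨K, hK1, hK2⟩ : ∃ K : ℕ, N₁ ≤ 2 ^ K ∧
      ∀ j : ℕ, K ≤ j → C + (2 * j + 4) * δ + 1 ≤ ε / 2 * 2 ^ j := by
    have ht : Filter.Tendsto (fun j : ℕ => (C + (2 * j + 4) * δ + 1) / (2 : ℝ) ^ j)
        Filter.atTop (nhds 0) := by
      have t1 : Filter.Tendsto (fun j : ℕ => (j : ℝ) / (2 : ℝ) ^ j) Filter.atTop (nhds 0) := by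
        have := tendsto_pow_const_div_const_pow_of_one_lt 1 (show (1 : ℝ) < 2 by norm_num)
        simpa using this
      have t2 : Filter.Tendsto (fun j : ℕ => (1 : ℝ) / (2 : ℝ) ^ j) Filter.atTop (nhds 0) := by
        have := tendsto_pow_const_div_const_pow_of_one_lt 0 (show (1 : ℝ) < 2 by norm_num)
        simpa using this
      have t3 := (t1.const_mul (2 * δ)).add (t2.const_mul (C + 4 * δ + 1))
      simp only [mul_zero, add_zero] at t3
      refine t3.congr ?_
      intro j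
      ring
    have hev := ht.eventually (gt_mem_nhds (show (0 : ℝ) < ε / 2 by positivity))
    rw [Filter.eventually_atTop] at hev
    obtain ⟨K₀, hK₀⟩ := hev
    refine ⟨max K₀ N₁, ?_, ?_⟩
    · calc N₁ ≤ 2 ^ N₁ := Nat.lt_two_pow_self.le
        _ ≤ 2 ^ max K₀ N₁ := Nat.pow_le_pow_right (by norm_num) (le_max_right _ _)
    · intro j hj
      have := hK₀ j (le_trans (le_max_left _ _) hj)
      rw [div_lt_iff₀ (by positivity)] at this
      linarith
  -- blocks are short as seen from the ray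
  have hseg : ∀ (w : ℕ) (j m : ℕ), K ≤ j → 2 ^ j ≤ m → m ≤ 2 ^ (j + 1) →
      ε / 2 * 2 ^ j - C - j * δ ≤ gp d (γ w) (x (2 ^ j)) (x m) := by
    intro w j m hj h1 h2
    apply chain h hC (γ w) j (2 ^ j) m h1 (by rw [pow_succ] at h2; omega)
    intro l hl1 _
    have hKj : 2 ^ K ≤ 2 ^ j := Nat.pow_le_pow_right (by norm_num) hj
    have h3 := hN₁ l (by omega) w
    have h4 : ((2 ^ j : ℕ) : ℝ) ≤ l := by exact_mod_cast hl1
    push_cast at h4
    nlinarith
  have hlong : ∀ (w : ℕ) (t : ℕ) (j m : ℕ), K ≤ j → 2 ^ j ≤ m → m ≤ 2 ^ (j + 1 + t) →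
      3 * δ + 1 + (j - K) * δ ≤ gp d (γ w) (x (2 ^ j)) (x m) := by
    intro w t
    induction t with
    | zero =>
      intro j m hj h1 h2
      have h3 := hseg w j m hj h1 h2
      have h4 := hK2 j hj
      have h5 : (0 : ℝ) ≤ K * δ := by positivity
      nlinarith
    | succ t ih =>
      intro j m hj h1 h2
      rcases Nat.lt_or_ge (2 ^ (j + 1)) m with hm | hm
      · have h3 := hseg w j (2 ^ (j + 1)) hj (Nat.pow_le_pow_right (by norm_num) (by omega)) le_rfl
        have h4 := ih (j + 1) m (by omega) hm.le (by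
          have : j + 1 + 1 + t = j + 1 + (t + 1) := by ring
          rw [this]; exact h2)
        have h5 := hK2 j hj
        have h6 := h.hyp (γ w) (x (2 ^ j)) (x (2 ^ (j + 1))) (x m)
        have h7 : (0 : ℝ) ≤ K * δ := by positivity
        have h8 : 3 * δ + 1 + (j - K) * δ + δ ≤
            min (gp d (γ w) (x (2 ^ j)) (x (2 ^ (j + 1)))) (gp d (γ w) (x (2 ^ (j + 1))) (x m)) := by
          apply le_min
          · nlinarith
          · push_cast at h4
            linarith
        linarith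
      · have h3 := hseg w j m hj h1 hm
        have h4 := hK2 j hj
        have h5 : (0 : ℝ) ≤ K * δ := by positivity
        nlinarith
  have hbound : ∀ m : ℕ, 2 ^ K ≤ m → pr d γ x m ≤ pr d γ x (2 ^ K) + δ + 1 := by
    intro m hm
    apply progress hγ h
    intro s
    have := hlong s m K m le_rfl hm (by
      calc m ≤ 2 ^ m := Nat.lt_two_pow_self.le
        _ ≤ 2 ^ (K + 1 + m) := Nat.pow_le_pow_right (by norm_num) (by omega))
    simp only [sub_self, zero_mul, add_zero] at this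
    linarith
  obtain ⟨N₃, hN₃⟩ := H1 (pr d γ x (2 ^ K) + δ + 2)
  have h1 := hN₃ (max N₃ (2 ^ K)) N₃ (le_max_left _ _) le_rfl
  have h2 := le_pr (γ := γ) (x := x) h (max N₃ (2 ^ K)) N₃
  have h3 := hbound (max N₃ (2 ^ K)) (le_max_right _ _)
  linarith

end Ray

end Pool.Agent.CT
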