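import Mathlib

set_option autoImplicit false

/-! A criterion for Hausdorff dimension zero. -/

namespace Pool.Agent.CT

open Filter MeasureTheory Topology
open scoped ENNReal NNReal

/-- A set which is covered infinitely often by subexponentially many sets of exponentially small
diameter has Hausdorff dimension zero. -/
theorem dimH_eq_zero_of_cover {Y : Type*} [EMetricSpace Y] (B : Set Y) {ρ : ℝ} (hρ0 : 0 < ρ)
    (hρ : ρ < 1)
    (H : ∀ c : ℝ, 1 < c → ∃ (K : ℝ) (J : ℕ → Type) (_ : ∀ n, Fintype (J n))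
      (t : ∀ n, J n → Set Y), 0 ≤ K ∧ (∀ n, (Fintype.card (J n) : ℝ) ≤ K * c ^ n) ∧
      (∀ n j, Metric.ediam (t n j) ≤ ENNReal.ofReal (ρ ^ n)) ∧
      ∀ ξ ∈ B, ∀ N : ℕ, ∃ n, N ≤ n ∧ ∃ j, ξ ∈ t n j) : dimH B = 0 := by
  letI : MeasurableSpace Y := borel Y
  haveI : BorelSpace Y := ⟨rfl⟩
  rw [← nonpos_iff_eq_zero]
  apply le_of_forall_gt
  intro D hD
  obtain ⟨D', hD'0, hD'⟩ := ENNReal.lt_iff_exists_nnreal_btwn.1 hD
  refine lt_of_le_of_lt ?_ hD'
  apply dimH_le_of_hausdorffMeasure_ne_top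
  have hD'pos : (0 : ℝ) < D' := by exact_mod_cast hD'0
  set s : ℝ := (D' : ℝ) with hs
  -- the growth rate which is allowed
  set c : ℝ := ρ ^ (-(s / 2)) with hc
  have hc1 : 1 < c := by
    rw [hc]
    apply Real.one_lt_rpow_of_pos_of_lt_one_of_neg hρ0 hρ
    linarith
  set θ : ℝ := ρ ^ (s / 2) with hθ
  have hθ0 : 0 < θ := Real.rpow_pos_of_pos hρ0 _
  have hθ1 : θ < 1 := Real.rpow_lt_one hρ0.le hρ (by linarith)
  have hprod : c * ρ ^ s = θ := by
    rw [hc, hθ, ← Real.rpow_add hρ0]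
    congr 1
    ring
  obtain ⟨K, J, _, t, hK, hcard, hdiam, hcov⟩ := H c hc1
  have key := Measure.hausdorffMeasure_le_liminf_tsum (X := Y) (β := ℕ)
    (ι := fun N => Σ n : ℕ, J (n + N)) s B (l := atTop)
    (fun N => ENNReal.ofReal (ρ ^ N))
    (by
      have h1 := tendsto_pow_atTop_nhds_zero_of_lt_one hρ0.le hρ
      have h2 := ENNReal.tendsto_ofReal h1
      simpa using h2)
    (fun N i => t (i.1 + N) i.2)
    (Eventually.of_forall (fun N i => (hdiam _ _).trans (ENNReal.ofReal_le_ofReal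
      (pow_le_pow_of_le_one hρ0.le hρ.le (Nat.le_add_left _ _)))))
    (Eventually.of_forall (fun N ξ hξ => by
      obtain ⟨n, hn, j, hj⟩ := hcov ξ hξ N
      obtain ⟨m, rfl⟩ : ∃ m, n = m + N := ⟨n - N, by omega⟩
      exact Set.mem_iUnion.2 ⟨⟨m, j⟩, hj⟩))
  -- bound of the sums
  have hsum : ∀ N : ℕ, ∑' i : (Σ n : ℕ, J (n + N)), Metric.ediam (t (i.1 + N) i.2) ^ s ≤
      ENNReal.ofReal K * (ENNReal.ofReal θ) ^ N * (1 - ENNReal.ofReal θ)⁻¹ := by
    intro N
    rw [ENNReal.tsum_sigma' (fun i : (Σ n : ℕ, J (n + N)) => Metric.ediam (t (i.1 + N) i.2) ^ s)]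
    calc ∑' (n : ℕ) (j : J (n + N)), Metric.ediam (t (n + N) j) ^ s
        ≤ ∑' (n : ℕ), ENNReal.ofReal K * (ENNReal.ofReal θ) ^ N * (ENNReal.ofReal θ) ^ n := by
          apply ENNReal.tsum_le_tsum
          intro n
          rw [tsum_fintype]
          calc ∑ j : J (n + N), Metric.ediam (t (n + N) j) ^ s
              ≤ ∑ _j : J (n + N), ENNReal.ofReal ((ρ ^ s) ^ (n + N)) := by
                apply Finset.sum_le_sum
                intro j _
                calc Metric.ediam (t (n + N) j) ^ s ≤ (ENNReal.ofReal (ρ ^ (n + N))) ^ s :=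
                      ENNReal.rpow_le_rpow (hdiam _ _) hD'pos.le
                  _ = ENNReal.ofReal ((ρ ^ s) ^ (n + N)) := by
                      rw [ENNReal.ofReal_rpow_of_nonneg (by positivity) hD'pos.le]
                      congr 1
                      rw [← Real.rpow_natCast, ← Real.rpow_natCast, ← Real.rpow_mul hρ0.le,
                        ← Real.rpow_mul hρ0.le]
                      congr 1
                      ring
            _ = (Fintype.card (J (n + N)) : ℝ≥0∞) * ENNReal.ofReal ((ρ ^ s) ^ (n + N)) := by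
                rw [Finset.sum_const, Finset.card_univ, nsmul_eq_mul]
            _ ≤ ENNReal.ofReal (K * c ^ (n + N)) * ENNReal.ofReal ((ρ ^ s) ^ (n + N)) := by
                gcongr
                rw [← ENNReal.ofReal_natCast]
                exact ENNReal.ofReal_le_ofReal (hcard _)
            _ = ENNReal.ofReal K * (ENNReal.ofReal θ) ^ N * (ENNReal.ofReal θ) ^ n := by
                rw [← ENNReal.ofReal_mul (by positivity), ← ENNReal.ofReal_pow hθ0.le,
                  ← ENNReal.ofReal_pow hθ0.le, ← ENNReal.ofReal_mul hK,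
                  ← ENNReal.ofReal_mul (by positivity)]
                congr 1
                rw [← hprod]
                ring
      _ = ENNReal.ofReal K * (ENNReal.ofReal θ) ^ N * (1 - ENNReal.ofReal θ)⁻¹ := by
          rw [ENNReal.tsum_mul_left, ENNReal.tsum_geometric]
  have hΘ : ENNReal.ofReal θ < 1 := by
    rw [← ENNReal.ofReal_one]
    exact (ENNReal.ofReal_lt_ofReal_iff one_pos).2 hθ1
  have hlim : Tendsto (fun N : ℕ => ENNReal.ofReal K * (ENNReal.ofReal θ) ^ N *
      (1 - ENNReal.ofReal θ)⁻¹) atTop (𝓝 0) := by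
    have h1 := ENNReal.tendsto_pow_atTop_nhds_zero_of_lt_one hΘ
    have hne : (1 - ENNReal.ofReal θ)⁻¹ ≠ ∞ := by
      rw [Ne, ENNReal.inv_eq_top]
      exact (tsub_pos_of_lt hΘ).ne'
    have h2 := ENNReal.Tendsto.const_mul (a := ENNReal.ofReal K) h1
      (Or.inr ENNReal.ofReal_ne_top)
    have h3 := ENNReal.Tendsto.mul_const (b := (1 - ENNReal.ofReal θ)⁻¹) h2 (Or.inr hne)
    simpa using h3
  have hfin : μH[s] B = 0 := by
    rw [← nonpos_iff_eq_zero]
    refine key.trans ?_
    rw [← hlim.liminf_eq]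
    exact liminf_le_liminf (Eventually.of_forall hsum)
  rw [show μH[(D' : ℝ)] B = 0 from hfin]
  exact ENNReal.zero_ne_top

end Pool.Agent.CT
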