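import Mathlib
import Pool.Agent.MP_eb6270_al.Defs

set_option autoImplicit false

/-! Geodesics in trees and the visual metric. -/

namespace Pool.Agent.CT

open SimpleGraph

section TreeLemmas

variable {V : Type*} {X : SimpleGraph V}

/-- A vertex between `u` and `v` lies on every walk from `u` to `v`. -/
lemma mem_support_of_between (hX : X.IsTree) {u v w : V}
    (h : X.dist u v = X.dist u w + X.dist w v) (p : X.Walk u v) : w ∈ p.support := by
  classical
  obtain ⟨q1, hq1⟩ := hX.connected.exists_walk_length_eq_dist u w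
  obtain ⟨q2, hq2⟩ := hX.connected.exists_walk_length_eq_dist w v
  have hq : (q1.append q2).length = X.dist u v := by rw [Walk.length_append, hq1, hq2, h]
  have hpath : (q1.append q2).IsPath := Walk.isPath_of_length_eq_dist _ hq
  have h1 := hX.isAcyclic.path_unique ⟨q1.append q2, hpath⟩ ⟨p.bypass, p.bypass_isPath⟩
  have h2 : q1.append q2 = p.bypass := congrArg Subtype.val h1
  apply p.support_bypass_subset
  rw [← h2, Walk.mem_support_append_iff]
  exact Or.inl q1.end_mem_support

lemma between_of_mem_support (hX : X.Connected) {u v w : V} {p : X.Walk u v}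
    (hp : p.length = X.dist u v) (hw : w ∈ p.support) :
    X.dist u v = X.dist u w + X.dist w v := by
  classical
  have h1 : (p.takeUntil w hw).length + (p.dropUntil w hw).length = p.length := by
    rw [← Walk.length_append, Walk.take_spec]
  have h2 := dist_le (p.takeUntil w hw)
  have h3 := dist_le (p.dropUntil w hw)
  have h4 := hX.dist_triangle (u := u) (v := w) (w := v)
  omega

lemma eq_of_between (hX : X.IsTree) {u v w w' : V}
    (h : X.dist u v = X.dist u w + X.dist w v) (h' : X.dist u v = X.dist u w' + X.dist w' v)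
    (hww : X.dist u w = X.dist u w') : w = w' := by
  obtain ⟨q1, hq1⟩ := hX.connected.exists_walk_length_eq_dist u w
  obtain ⟨q2, hq2⟩ := hX.connected.exists_walk_length_eq_dist w v
  have h1 := mem_support_of_between hX h' (q1.append q2)
  rw [Walk.mem_support_append_iff] at h1
  rcases h1 with h1 | h1
  · have h2 := between_of_mem_support hX.connected hq1 h1
    have h3 : X.dist w' w = 0 := by omega
    exact ((hX.connected.dist_eq_zero_iff).1 h3).symm
  · have h2 := between_of_mem_support hX.connected hq2 h1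
    have h3 : X.dist w w' = 0 := by omega
    exact (hX.connected.dist_eq_zero_iff).1 h3

lemma GeodesicRay.between (γ : GeodesicRay X) {m n : ℕ} (h : m ≤ n) :
    X.dist (γ.vert 0) (γ.vert n) = X.dist (γ.vert 0) (γ.vert m) +
      X.dist (γ.vert m) (γ.vert n) := by
  rw [γ.geod 0 n (Nat.zero_le _), γ.geod 0 m (Nat.zero_le _), γ.geod m n h]
  omega

lemma GeodesicRay.injective (hX : X.Connected) (γ : GeodesicRay X) :
    Function.Injective γ.vert := by
  have key : ∀ m n : ℕ, m ≤ n → γ.vert m = γ.vert n → m = n := by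
    intro m n hmn h
    have h1 := γ.geod m n hmn
    rw [h, SimpleGraph.dist_self] at h1
    omega
  intro m n h
  rcases le_total m n with hmn | hmn
  · exact key m n hmn h
  · exact (key n m hmn h.symm).symm

lemma GeodesicRay.adj (γ : GeodesicRay X) (n : ℕ) : X.Adj (γ.vert n) (γ.vert (n + 1)) := by
  rw [← SimpleGraph.dist_eq_one_iff_adj, γ.geod n (n + 1) (Nat.le_succ _)]
  omega

/-- Two rays with the same origin which meet at time `n` agree up to time `n`. -/
lemma ray_eq_of_eq (hX : X.IsTree) (γ γ' : GeodesicRay X) (h0 : γ.vert 0 = γ'.vert 0) {n : ℕ}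
    (hn : γ.vert n = γ'.vert n) {m : ℕ} (hm : m ≤ n) : γ.vert m = γ'.vert m := by
  have h1 := γ.between hm
  have h2 := γ'.between hm
  rw [← h0, ← hn] at h2
  apply eq_of_between hX h1 h2
  rw [γ.geod 0 m (Nat.zero_le _)]
  have := γ'.geod 0 m (Nat.zero_le _)
  rw [← h0] at this
  rw [this]

/-- Points near `γ k` converge to the end of `γ`. -/
lemma between_of_near (hX : X.IsTree) (γ : GeodesicRay X) {y : V} {k n D : ℕ}
    (hy : X.dist y (γ.vert k) ≤ D) (hk : n + D < k) :
    X.dist (γ.vert 0) y = n + X.dist (γ.vert n) y := by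
  obtain ⟨P, hP⟩ := hX.connected.exists_walk_length_eq_dist (γ.vert 0) y
  obtain ⟨R, hR⟩ := hX.connected.exists_walk_length_eq_dist y (γ.vert k)
  have h1 := mem_support_of_between hX (γ.between (show n ≤ k by omega)) (P.append R)
  rw [Walk.mem_support_append_iff] at h1
  rcases h1 with h1 | h1
  · have h2 := between_of_mem_support hX.connected hP h1
    rw [h2, γ.geod 0 n (Nat.zero_le _)]
    omega
  · have h2 := between_of_mem_support hX.connected hR h1
    have h3 := γ.geod n k (by omega)
    omega

end TreeLemmas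

section Visual

variable {r : ℕ} {T : OuterTree r} {x₀ : T.V}

lemma TreeBoundary.ext {ξ η : TreeBoundary T x₀} (h : ∀ n, ξ.1.vert n = η.1.vert n) : ξ = η := by
  obtain ⟨⟨v, hv⟩, h0⟩ := ξ
  obtain ⟨⟨w, hw⟩, h0'⟩ := η
  have : v = w := funext h
  subst this
  rfl

/-- First time at which two rays differ. -/
noncomputable def sep (ξ η : TreeBoundary T x₀) : ℕ := sInf {n : ℕ | ξ.1.vert n ≠ η.1.vert n}

lemma sep_comm (ξ η : TreeBoundary T x₀) : sep ξ η = sep η ξ := by
  unfold sep
  congr 1
  ext n
  exact ne_comm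

lemma sep_spec {ξ η : TreeBoundary T x₀} (h : ξ ≠ η) :
    ξ.1.vert (sep ξ η) ≠ η.1.vert (sep ξ η) := by
  have hne : {n : ℕ | ξ.1.vert n ≠ η.1.vert n}.Nonempty := by
    by_contra hc
    rw [Set.not_nonempty_iff_eq_empty] at hc
    apply h
    apply TreeBoundary.ext
    intro n
    by_contra hn
    have : n ∈ {n : ℕ | ξ.1.vert n ≠ η.1.vert n} := hn
    rw [hc] at this
    exact this
  exact Nat.sInf_mem hne

lemma eq_of_lt_sep {ξ η : TreeBoundary T x₀} {n : ℕ} (h : n < sep ξ η) :
    ξ.1.vert n = η.1.vert n := by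
  by_contra hc
  exact Nat.notMem_of_lt_sInf h hc

lemma sep_pos {ξ η : TreeBoundary T x₀} (h : ξ ≠ η) : 0 < sep ξ η := by
  rcases Nat.eq_zero_or_pos (sep ξ η) with h0 | h0
  · exfalso
    have := sep_spec h
    rw [h0] at this
    exact this (ξ.2.trans η.2.symm)
  · exact h0

/-- Rays which agree at time `n` separate later. -/
lemma lt_sep {ξ η : TreeBoundary T x₀} (h : ξ ≠ η) {n : ℕ} (hn : ξ.1.vert n = η.1.vert n) :
    n < sep ξ η := by
  by_contra hc
  push Not at hc
  exact sep_spec h (ray_eq_of_eq T.isTree ξ.1 η.1 (ξ.2.trans η.2.symm) hn hc)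

/-- Length of the initial segment with `n` edges. -/
noncomputable def ilen (ξ : TreeBoundary T x₀) (n : ℕ) : ℝ :=
  ∑ i ∈ Finset.range n, T.len (ξ.1.vert i) (ξ.1.vert (i + 1))

lemma commonLength_eq (ξ η : TreeBoundary T x₀) :
    commonLength ξ η = ilen ξ (sep ξ η - 1) := rfl

lemma ilen_mono (ξ : TreeBoundary T x₀) : Monotone (ilen ξ) := by
  apply monotone_nat_of_le_succ
  intro n
  unfold ilen
  rw [Finset.sum_range_succ]
  have := T.len_pos _ _ (ξ.1.adj n)
  linarith

lemma ilen_congr {ξ η : TreeBoundary T x₀} {n : ℕ} (h : n < sep ξ η) : ilen ξ n = ilen η n := by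
  unfold ilen
  apply Finset.sum_congr rfl
  intro i hi
  rw [Finset.mem_range] at hi
  rw [eq_of_lt_sep (show i < sep ξ η by omega), eq_of_lt_sep (show i + 1 < sep ξ η by omega)]

lemma commonLength_comm (ξ η : TreeBoundary T x₀) : commonLength ξ η = commonLength η ξ := by
  by_cases h : ξ = η
  · rw [h]
  · rw [commonLength_eq, commonLength_eq, sep_comm η ξ]
    exact ilen_congr (by have := sep_pos h; omega)

lemma visualDist_self (a : ℝ) (ξ : TreeBoundary T x₀) : visualDist a ξ ξ = 0 := by
  simp [visualDist]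

lemma visualDist_comm (a : ℝ) (ξ η : TreeBoundary T x₀) :
    visualDist a ξ η = visualDist a η ξ := by
  unfold visualDist
  by_cases h : ξ = η
  · rw [if_pos h, if_pos h.symm]
  · rw [if_neg h, if_neg (fun h' => h h'.symm), commonLength_comm]

lemma visualDist_nonneg {a : ℝ} (ha : 1 < a) (ξ η : TreeBoundary T x₀) :
    0 ≤ visualDist a ξ η := by
  unfold visualDist
  split_ifs
  · exact le_rfl
  · exact (Real.rpow_pos_of_pos (by linarith) _).le

lemma visualDist_ultra {a : ℝ} (ha : 1 < a) (ξ η ζ : TreeBoundary T x₀) :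
    visualDist a ξ ζ ≤ max (visualDist a ξ η) (visualDist a η ζ) := by
  by_cases h1 : ξ = ζ
  · rw [h1, visualDist_self]
    exact le_max_of_le_left (visualDist_nonneg ha _ _)
  by_cases h2 : ξ = η
  · rw [h2]; exact le_max_right _ _
  by_cases h3 : η = ζ
  · rw [h3]; exact le_max_left _ _
  -- one of the two separation times is at most that of `ξ, ζ`
  rcases le_total (sep ξ η) (sep η ζ) with h | h
  · apply le_max_of_le_left
    have hs : sep ξ η ≤ sep ξ ζ := by
      have h4 : ξ.1.vert (sep ξ η - 1) = ζ.1.vert (sep ξ η - 1) := by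
        have := sep_pos h2
        rw [eq_of_lt_sep (show sep ξ η - 1 < sep ξ η by omega),
          eq_of_lt_sep (show sep ξ η - 1 < sep η ζ by omega)]
      have := lt_sep h1 h4
      omega
    unfold visualDist
    rw [if_neg h1, if_neg h2]
    apply Real.rpow_le_rpow_of_exponent_le ha.le
    rw [neg_le_neg_iff, commonLength_eq, commonLength_eq]
    exact ilen_mono ξ (by omega)
  · apply le_max_of_le_right
    have hs : sep η ζ ≤ sep ξ ζ := by
      have h4 : ξ.1.vert (sep η ζ - 1) = ζ.1.vert (sep η ζ - 1) := by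
        have := sep_pos h3
        rw [eq_of_lt_sep (show sep η ζ - 1 < sep ξ η by omega),
          eq_of_lt_sep (show sep η ζ - 1 < sep η ζ by omega)]
      have := lt_sep h1 h4
      omega
    unfold visualDist
    rw [if_neg h1, if_neg h3]
    apply Real.rpow_le_rpow_of_exponent_le ha.le
    rw [neg_le_neg_iff, commonLength_comm ξ ζ, commonLength_comm η ζ, commonLength_eq,
      commonLength_eq, sep_comm ζ ξ, sep_comm ζ η]
    exact ilen_mono ζ (by omega)

/-- The visual metric space structure `d_a` on `∂T`. -/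
noncomputable abbrev visualMetric (T : OuterTree r) (x₀ : T.V) {a : ℝ} (ha : 1 < a) :
    MetricSpace (TreeBoundary T x₀) where
  dist := visualDist a
  dist_self := visualDist_self a
  dist_comm := visualDist_comm a
  dist_triangle ξ η ζ := by
    have h1 := visualDist_ultra ha ξ η ζ
    have h2 := visualDist_nonneg ha ξ η
    have h3 := visualDist_nonneg ha η ζ
    have h4 : max (visualDist a ξ η) (visualDist a η ζ) ≤ visualDist a ξ η + visualDist a η ζ :=
      max_le (by linarith) (by linarith)
    exact h1.trans h4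
  eq_of_dist_eq_zero {ξ η} h := by
    by_contra hne
    change visualDist a ξ η = 0 at h
    unfold visualDist at h
    rw [if_neg hne] at h
    exact (Real.rpow_pos_of_pos (show (0 : ℝ) < a by linarith) _).ne' h

end Visual

end Pool.Agent.CT
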