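import Mathlib
import Pool.Agent.MP_eb6270_al.Defs
import Pool.Agent.MP_eb6270_al.Geometry
import Pool.Agent.MP_eb6270_al.Tree
import Pool.Agent.MP_eb6270_al.Meas

set_option autoImplicit false

/-! The set of ends with non-conical image has Hausdorff dimension zero. -/

namespace Pool.Agent.CT

open SimpleGraph
open scoped Pointwise

section Cayley

lemma dist_map_le {V W : Type*} {X : SimpleGraph V} {Y : SimpleGraph W} (hX : X.Connected)
    (f : V → W) (hf : ∀ u v, X.Adj u v → Y.Adj (f u) (f v)) (u v : V) :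
    Y.dist (f u) (f v) ≤ X.dist u v := by
  obtain ⟨p, hp⟩ := hX.exists_walk_length_eq_dist u v
  rw [← hp]
  let F : X →g Y := ⟨f, fun {a b} h => hf a b h⟩
  have h1 := dist_le (p.map F)
  rw [Walk.length_map] at h1
  exact h1

variable {G : Type*} [Group G] (S : Set G)

lemma cayley_dist_mul (hc : (mulCayley S).Connected) (g x y : G) :
    (mulCayley S).dist (g * x) (g * y) = (mulCayley S).dist x y := by
  apply le_antisymm
  · exact dist_map_le hc (fun z => g * z) (fun u v h => mulCayley_adj_mul_iff_right.2 h) x y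
  · have h1 := dist_map_le hc (fun z => g⁻¹ * z)
      (fun u v h => mulCayley_adj_mul_iff_right.2 h) (g * x) (g * y)
    simpa using h1

lemma walk_mem_pow [DecidableEq G] (A : Finset G) (hA : ∀ s ∈ S, s ∈ A ∧ s⁻¹ ∈ A) {u v : G}
    (p : (mulCayley S).Walk u v) : u⁻¹ * v ∈ A ^ p.length := by
  induction p with
  | nil => simp
  | @cons u w v h p ih =>
    rw [Walk.length_cons, pow_succ']
    rw [mulCayley_adj] at h
    refine Finset.mem_mul.2 ⟨u⁻¹ * w, ?_, w⁻¹ * v, ih, by group⟩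
    rcases h.2 with h | h
    · exact (hA _ h).1
    · have h2 := (hA _ h).2
      rwa [mul_inv_rev, inv_inv] at h2

lemma mem_pow_of_dist_le [DecidableEq G] (hc : (mulCayley S).Connected) (A : Finset G)
    (hA : ∀ s ∈ S, s ∈ A ∧ s⁻¹ ∈ A) (h1 : (1 : G) ∈ A) {g : G} {m : ℕ}
    (h : (mulCayley S).dist 1 g ≤ m) : g ∈ A ^ m := by
  obtain ⟨p, hp⟩ := hc.exists_walk_length_eq_dist 1 g
  have h2 := walk_mem_pow S A hA p
  rw [inv_one, one_mul] at h2
  exact Finset.pow_subset_pow_right h1 (by omega) h2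

lemma hyp_of_isGromovHyperbolic {V : Type*} {X : SimpleGraph V} (h : IsGromovHyperbolic X) :
    ∃ δ : ℝ, Hyp (fun x y => (X.dist x y : ℝ)) δ := by
  obtain ⟨hc, δ, hδ⟩ := h
  refine ⟨max δ 0, ?_, ?_, ?_, le_max_right _ _, ?_⟩
  · intro x; simp
  · intro x y
    rw [SimpleGraph.dist_comm]
  · intro x y z
    exact_mod_cast hc.dist_triangle
  · intro w x y z
    have h1 := hδ w x y z
    have h2 := le_max_left δ 0
    change min (gromovProduct X w x y) (gromovProduct X w y z) - max δ 0 ≤ gromovProduct X w x z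
    linarith

end Cayley

section Tree

variable {r : ℕ} (T : OuterTree r)

lemma smul_cancel {g h : FreeGroup (Fin r)} {v : T.V} (e : g • v = h • v) : g = h := by
  have h1 : (h⁻¹ * g) • v = v := by rw [mul_smul, e, inv_smul_smul]
  have h2 := T.free _ _ h1
  exact (inv_mul_eq_one.1 h2).symm

lemma adj_of_smul {g : FreeGroup (Fin r)} {v w : T.V} (h : T.graph.Adj (g • v) (g • w)) :
    T.graph.Adj v w := by
  have h1 := T.adj_smul g⁻¹ _ _ h
  rwa [inv_smul_smul, inv_smul_smul] at h1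

lemma tree_dist_smul (g : FreeGroup (Fin r)) (v w : T.V) :
    T.graph.dist (g • v) (g • w) = T.graph.dist v w := by
  apply le_antisymm
  · exact dist_map_le T.isTree.connected (fun z => g • z) (T.adj_smul g) v w
  · have h1 := dist_map_le T.isTree.connected (fun z => g⁻¹ • z) (T.adj_smul g⁻¹)
      (g • v) (g • w)
    rwa [inv_smul_smul, inv_smul_smul] at h1

/-- Finitely many translations compare adjacent vertices. -/
lemma finite_steps {D : Set T.V} (hD : D.Finite) :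
    {h : FreeGroup (Fin r) | ∃ d ∈ D, ∃ d' ∈ D, T.graph.Adj d (h • d')}.Finite := by
  obtain ⟨E, hE, hE'⟩ := T.finite_edges
  have hfin : (⋃ p ∈ (D ×ˢ (D ×ˢ E)), {h : FreeGroup (Fin r) |
      ∃ g : FreeGroup (Fin r), g • p.1 = p.2.2.1 ∧ g • h • p.2.1 = p.2.2.2}).Finite := by
    apply Set.Finite.biUnion (hD.prod (hD.prod hE))
    intro p _
    apply Set.Subsingleton.finite
    rintro h ⟨g, hg1, hg2⟩ h' ⟨g', hg1', hg2'⟩
    have e1 : g = g' := smul_cancel T (hg1.trans hg1'.symm)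
    subst e1
    have e2 : h • p.2.1 = h' • p.2.1 := by
      have := hg2.trans hg2'.symm
      exact smul_left_cancel g this
    exact smul_cancel T e2
  apply hfin.subset
  rintro h ⟨d, hd, d', hd', hadj⟩
  obtain ⟨g, hg⟩ := hE' _ _ hadj
  rw [Set.mem_iUnion₂]
  exact ⟨(d, (d', (g • d, g • h • d'))), ⟨hd, hd', hg⟩, g, rfl, rfl⟩

lemma exists_lower_bound {α : Type*} {E : Set α} (hE : E.Finite) (f : α → ℝ)
    (hf : ∀ e ∈ E, 0 < f e) : ∃ ℓ : ℝ, 0 < ℓ ∧ ∀ e ∈ E, ℓ ≤ f e := by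
  induction E, hE using Set.Finite.induction_on with
  | empty => exact ⟨1, one_pos, by simp⟩
  | @insert a s _ _ ih =>
    obtain ⟨ℓ, hℓ, h⟩ := ih (fun e he => hf e (Set.mem_insert_of_mem _ he))
    refine ⟨min ℓ (f a), lt_min hℓ (hf a (Set.mem_insert _ _)), ?_⟩
    rintro e (rfl | he)
    · exact min_le_right _ _
    · exact (min_le_left _ _).trans (h e he)

lemma exists_len_lower_bound : ∃ ℓ : ℝ, 0 < ℓ ∧ ∀ v w : T.V, T.graph.Adj v w → ℓ ≤ T.len v w := by
  obtain ⟨E, hE, hE'⟩ := T.finite_edges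
  have hfin : {e ∈ E | 0 < T.len e.1 e.2}.Finite := hE.subset (Set.sep_subset _ _)
  obtain ⟨ℓ, hℓ, h⟩ := exists_lower_bound hfin (fun e => T.len e.1 e.2) (fun e he => he.2)
  refine ⟨ℓ, hℓ, ?_⟩
  intro v w hvw
  obtain ⟨g, hg⟩ := hE' v w hvw
  have h1 : T.len (g • v) (g • w) = T.len v w := T.len_smul g v w
  have h2 := h (g • v, g • w) ⟨hg, by simpa only [h1] using T.len_pos v w hvw⟩
  simpa only [h1] using h2

lemma le_ilen {x₀ : T.V} {ℓ : ℝ} (hℓ : ∀ v w : T.V, T.graph.Adj v w → ℓ ≤ T.len v w)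
    (ξ : TreeBoundary T x₀) (n : ℕ) : n * ℓ ≤ ilen ξ n := by
  unfold ilen
  have h1 := Finset.card_nsmul_le_sum (Finset.range n)
    (fun i => T.len (ξ.1.vert i) (ξ.1.vert (i + 1))) ℓ (fun i _ => hℓ _ _ (ξ.1.adj i))
  rwa [Finset.card_range, nsmul_eq_mul] at h1

end Tree

section Main

variable {r : ℕ} (φ : MulAut (FreeGroup (Fin r))) (S : Set (MappingTorus φ))

/-- If `ξ` has non-conical image then its vertices are infinitely often at sublinear distance
from `1` in `G_φ`. -/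
lemma sublinear_of_nonconical (hhyp : IsGromovHyperbolic (mulCayley S)) (T : OuterTree r)
    (x₀ : T.V) {D : Set T.V} (hD : D.Finite) (f : T.V → FreeGroup (Fin r)) (dd : T.V → T.V)
    (hdd : ∀ v, dd v ∈ D) (hf : ∀ v, v = f v • dd v) {ξ : TreeBoundary T x₀}
    (hξ : ξ ∈ nonconicalPreimage φ S T x₀) (q N : ℕ) (hq : 0 < q) :
    ∃ n, N ≤ n ∧ q * (mulCayley S).dist 1 (SemidirectProduct.inl (f (ξ.1.vert n))) ≤ n := by
  obtain ⟨z, hz, hnc⟩ := hξ
  have hconn := hhyp.1
  obtain ⟨δ, hδ⟩ := hyp_of_isGromovHyperbolic hhyp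
  set i : FreeGroup (Fin r) →* MappingTorus φ := SemidirectProduct.inl with hi
  -- the sequence converges to `ξ`
  obtain ⟨D0, hD0⟩ : ∃ D0 : ℕ, ∀ d ∈ D, T.graph.dist x₀ d ≤ D0 := by
    obtain ⟨D0, hD0⟩ := (hD.image (fun d => T.graph.dist x₀ d)).bddAbove
    exact ⟨D0, fun d hd => hD0 (Set.mem_image_of_mem _ hd)⟩
  have hnear : ∀ v : T.V, T.graph.dist (f v • x₀) v ≤ D0 := by
    intro v
    have h1 : T.graph.dist (f v • x₀) (f v • dd v) ≤ D0 := by
      rw [tree_dist_smul]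
      exact hD0 _ (hdd v)
    rwa [← hf v] at h1
  have htend : TendsToEnd (fun k => f (ξ.1.vert k) • x₀) ξ := by
    intro n
    refine ⟨n + D0 + 1, fun k hk => ?_⟩
    have h1 := between_of_near T.isTree ξ.1 (hnear (ξ.1.vert k)) (show n + D0 < k by omega)
    rw [ξ.2] at h1
    exact h1
  obtain ⟨γ, hγz, hγ⟩ := hz _ htend
  -- adjacent vertices give nearby group elements
  have hfin := finite_steps T hD
  obtain ⟨C, hC⟩ : ∃ C : ℕ, ∀ h ∈ {h : FreeGroup (Fin r) | ∃ d ∈ D, ∃ d' ∈ D,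
      T.graph.Adj d (h • d')}, (mulCayley S).dist 1 (i h) ≤ C := by
    obtain ⟨C, hC⟩ := (hfin.image (fun h => (mulCayley S).dist 1 (i h))).bddAbove
    exact ⟨C, fun d hd => hC (Set.mem_image_of_mem _ hd)⟩
  have hjump : ∀ n, (mulCayley S).dist (i (f (ξ.1.vert n))) (i (f (ξ.1.vert (n + 1)))) ≤ C := by
    intro n
    have h1 : T.graph.Adj (dd (ξ.1.vert n))
        (((f (ξ.1.vert n))⁻¹ * f (ξ.1.vert (n + 1))) • dd (ξ.1.vert (n + 1))) := by
      have h2 := ξ.1.adj n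
      apply adj_of_smul T (g := f (ξ.1.vert n))
      rw [← hf, mul_smul, smul_inv_smul, ← hf]
      exact h2
    have h3 := hC _ ⟨_, hdd _, _, hdd _, h1⟩
    rw [← cayley_dist_mul S hconn (i (f (ξ.1.vert n)))] at h3
    rwa [mul_one, ← map_mul, mul_inv_cancel_left] at h3
  -- few vertices near the ray
  have hfar : ∀ R : ℝ, ∃ M : ℕ, ∀ k : ℕ, M ≤ k → ∀ s : ℕ,
      R < ((mulCayley S).dist (i (f (ξ.1.vert k))) (γ.vert s) : ℝ) := by
    intro R
    have hnc' : {g : MappingTorus φ | g ∈ Set.range i ∧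
        ∃ n, (mulCayley S).dist g (γ.vert n) ≤ ⌈R⌉₊}.Finite := by
      by_contra hinf
      exact hnc ⟨γ, hγz, ⌈R⌉₊, hinf⟩
    have hk : {k : ℕ | ∃ s, (mulCayley S).dist (i (f (ξ.1.vert k))) (γ.vert s) ≤ ⌈R⌉₊}.Finite := by
      apply Set.Finite.of_injOn (f := fun k => (i (f (ξ.1.vert k)), dd (ξ.1.vert k)))
        (t := {g : MappingTorus φ | g ∈ Set.range i ∧
        ∃ n, (mulCayley S).dist g (γ.vert n) ≤ ⌈R⌉₊} ×ˢ D) ?_ ?_ (hnc'.prod hD)
      · rintro k ⟨s, hs⟩
        exact ⟨⟨⟨_, rfl⟩, s, hs⟩, hdd _⟩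
      · intro k _ l _ hkl
        rw [Prod.mk.injEq] at hkl
        have h1 : f (ξ.1.vert k) = f (ξ.1.vert l) := SemidirectProduct.inl_injective hkl.1
        apply ξ.1.injective T.isTree.connected
        rw [hf (ξ.1.vert k), hf (ξ.1.vert l), h1, hkl.2]
    obtain ⟨M, hM⟩ := hk.bddAbove
    refine ⟨M + 1, fun k hk s => ?_⟩
    by_contra hc
    push Not at hc
    have h1 : k ∈ {k : ℕ | ∃ s, (mulCayley S).dist (i (f (ξ.1.vert k))) (γ.vert s) ≤ ⌈R⌉₊} := by
      refine ⟨s, ?_⟩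
      have h2 := hc.trans (Nat.le_ceil R)
      exact_mod_cast h2
    have h2 := hM h1
    omega
  -- conclusion
  by_contra hcon
  push Not at hcon
  set K0 : ℕ := (mulCayley S).dist 1 (γ.vert 0) with hK0
  have hqpos : (0 : ℝ) < q := by exact_mod_cast hq
  refine no_linear_progress (d := fun x y => ((mulCayley S).dist x y : ℝ)) (γ := γ.vert)
    (x := fun k => i (f (ξ.1.vert k))) (C := C) (ε := 1 / (2 * q)) (n₀ := max N (2 * q * K0))
    ?_ hδ ?_ ?_ (by positivity) ?_ hfar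
  · intro m n hmn
    rw [γ.geod m n hmn, Nat.cast_sub hmn]
  · intro n
    exact_mod_cast hjump n
  · intro M
    exact hγ M
  · intro n hn
    have h1 := hcon n ((le_max_left _ _).trans hn)
    have h2 := (le_max_right N (2 * q * K0)).trans hn
    have h3 : (mulCayley S).dist 1 (i (f (ξ.1.vert n))) ≤ K0 +
        (mulCayley S).dist (i (f (ξ.1.vert n))) (γ.vert 0) := by
      have h4 := hconn.dist_triangle (u := (1 : MappingTorus φ)) (v := γ.vert 0)
        (w := i (f (ξ.1.vert n)))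
      rw [(mulCayley S).dist_comm (u := γ.vert 0)] at h4
      exact h4
    have h1' : (n : ℝ) < q * ((mulCayley S).dist 1 (i (f (ξ.1.vert n))) : ℝ) := by
      exact_mod_cast h1
    have h2' : 2 * (q : ℝ) * K0 ≤ n := by exact_mod_cast h2
    have h3' : ((mulCayley S).dist 1 (i (f (ξ.1.vert n))) : ℝ) ≤ K0 +
        (mulCayley S).dist (i (f (ξ.1.vert n))) (γ.vert 0) := by exact_mod_cast h3
    change 1 / (2 * (q : ℝ)) * n ≤ ((mulCayley S).dist (i (f (ξ.1.vert n))) (γ.vert 0) : ℝ)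
    rw [div_mul_eq_mul_div, one_mul, div_le_iff₀ (by positivity)]
    nlinarith [mul_le_mul_of_nonneg_left h3' hqpos.le]

/-- **Main theorem.** -/
theorem dimH_nonconicalPreimage (hS : S.Finite) (hhyp : IsGromovHyperbolic (mulCayley S))
    (T : OuterTree r) (x₀ : T.V) (a : ℝ) (ha : 1 < a) :
    @dimH _ (visualMetric T x₀ ha).toEMetricSpace (nonconicalPreimage φ S T x₀) = 0 := by
  classical
  let _ : MetricSpace (TreeBoundary T x₀) := visualMetric T x₀ ha
  have hconn := hhyp.1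
  obtain ⟨D, hD, hD'⟩ := T.finite_vertices
  choose g hg using hD'
  set f : T.V → FreeGroup (Fin r) := fun v => (g v)⁻¹ with hf
  set dd : T.V → T.V := fun v => g v • v with hdd
  have hfdd : ∀ v, v = f v • dd v := fun v => by rw [hf, hdd]; simp
  obtain ⟨ℓ, hℓ, hℓ'⟩ := exists_len_lower_bound T
  have ha0 : 0 < a := by linarith
  set ρ : ℝ := a ^ (-ℓ) with hρ
  have hρ0 : 0 < ρ := Real.rpow_pos_of_pos ha0 _
  have hρ1 : ρ < 1 := Real.rpow_lt_one_of_one_lt_of_neg ha (by linarith)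
  set A : Finset (MappingTorus φ) := hS.toFinset ∪ hS.toFinset⁻¹ ∪ {1} with hA
  have hA1 : ∀ s ∈ S, s ∈ A ∧ s⁻¹ ∈ A := by
    intro s hs
    constructor
    · simp [hA, hs]
    · simp [hA, hs]
  have hA2 : (1 : MappingTorus φ) ∈ A := by simp [hA]
  have hA3 : 1 ≤ A.card := Finset.card_pos.2 ⟨1, hA2⟩
  apply dimH_eq_zero_of_cover _ hρ0 hρ1
  intro c hc
  obtain ⟨q, hq⟩ := pow_unbounded_of_one_lt (A.card : ℝ) hc
  have hq0 : 0 < q := by
    rcases Nat.eq_zero_or_pos q with h0 | h0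
    · rw [h0, pow_zero] at hq
      have : (1 : ℝ) ≤ A.card := by exact_mod_cast hA3
      linarith
    · exact h0
  refine ⟨hD.toFinset.card, fun n => ↥(A ^ (n / q)) × ↥hD.toFinset, fun n => inferInstance,
    fun n j => {ξ | ∃ u : FreeGroup (Fin r), SemidirectProduct.inl u = (j.1 : MappingTorus φ) ∧
      ξ.1.vert n = u • (j.2 : T.V)}, Nat.cast_nonneg _, ?_, ?_, ?_⟩
  · intro n
    rw [Fintype.card_prod, Fintype.card_coe, Fintype.card_coe, Nat.cast_mul, mul_comm]
    apply mul_le_mul_of_nonneg_left _ (Nat.cast_nonneg _)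
    have h1 : ((A ^ (n / q)).card : ℝ) ≤ (A.card : ℝ) ^ (n / q) := by
      exact_mod_cast Finset.card_pow_le
    have h2 : (A.card : ℝ) ^ (n / q) ≤ (c ^ q) ^ (n / q) :=
      pow_le_pow_left₀ (Nat.cast_nonneg _) hq.le _
    rw [← pow_mul] at h2
    have h3 : c ^ (q * (n / q)) ≤ c ^ n := pow_le_pow_right₀ hc.le (Nat.mul_div_le n q)
    linarith
  · rintro n ⟨⟨y, hy⟩, ⟨d, hd⟩⟩
    apply Metric.ediam_le
    rintro ξ ⟨u, hu1, hu2⟩ η ⟨u', hu1', hu2'⟩
    have huu : u = u' := SemidirectProduct.inl_injective (hu1.trans hu1'.symm)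
    have hn : ξ.1.vert n = η.1.vert n := by rw [hu2, hu2', huu]
    rw [edist_dist]
    apply ENNReal.ofReal_le_ofReal
    change visualDist a ξ η ≤ ρ ^ n
    unfold visualDist
    split_ifs with hξη
    · positivity
    · rw [hρ, ← Real.rpow_natCast, ← Real.rpow_mul ha0.le]
      apply Real.rpow_le_rpow_of_exponent_le ha.le
      have h1 := lt_sep hξη hn
      have h2 := ilen_mono ξ (show n ≤ sep ξ η - 1 by omega)
      have h3 := le_ilen T hℓ' ξ n
      rw [commonLength_eq]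
      linarith
  · intro ξ hξ N
    obtain ⟨n, hn, hn'⟩ := sublinear_of_nonconical φ S hhyp T x₀ hD f dd hg hfdd hξ q N hq0
    refine ⟨n, hn, (⟨SemidirectProduct.inl (f (ξ.1.vert n)), ?_⟩, ⟨dd (ξ.1.vert n), ?_⟩),
      f (ξ.1.vert n), rfl, hfdd _⟩
    · apply mem_pow_of_dist_le S hconn A hA1 hA2
      rw [Nat.le_div_iff_mul_le hq0, mul_comm]
      exact hn'
    · rw [Set.Finite.mem_toFinset]
      exact hg _

end Main

end Pool.Agent.CT
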